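import Pool.Agent.H773.CS.Stm

/-!
The fractional solution of the near instance.
-/

open Finset

namespace Pool.Agent.H314.CS

open Pool.Agent.H773.CS

theorem key {Ω A : Type} [Fintype Ω] [Fintype A] [DecidableEq A] (P : ℝ) (F : Ω → A)
    (c : A → Prop) [DecidablePred c] :
    (∑ a, (if c a then (∑ θ, if F θ = a then (1 : ℝ) else 0) / P else 0)) =
      (∑ θ, if c (F θ) then (1 : ℝ) else 0) / P := by
  have h1 : ∀ a, (if c a then (∑ θ, if F θ = a then (1 : ℝ) else 0) / P else 0) =
      ∑ θ, (if F θ = a then (if c a then 1 / P else 0) else 0) := by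
    intro a
    by_cases h : c a
    · rw [if_pos h, if_pos h, sum_div]
      refine sum_congr rfl fun θ _ => ?_
      by_cases h2 : F θ = a
      · rw [if_pos h2, if_pos h2]
      · rw [if_neg h2, if_neg h2, zero_div]
    · rw [if_neg h, if_neg h]
      symm
      refine sum_eq_zero fun θ _ => ?_
      exact ite_self 0
  rw [sum_congr rfl fun a _ => h1 a, sum_comm, sum_div]
  refine sum_congr rfl fun θ _ => ?_
  rw [sum_ite_eq, if_pos (mem_univ _)]
  by_cases h : c (F θ)
  · rw [if_pos h, if_pos h]
  · rw [if_neg h, if_neg h, zero_div]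

/-- the fractional values of the variables -/
noncomputable def xx (q : ℕ) {P : ℕ} (v : ZMod P × Bool) (s : Sym q) : ℝ :=
  (if s = .bit true then (v.1.val : ℝ) / P else 0) +
    (if s = .bit false then 1 - (v.1.val : ℝ) / P else 0)

theorem val_div_le {P : ℕ} [NeZero P] (a : ZMod P) : (a.val : ℝ) / P ≤ 1 := by
  have h1 : (0 : ℝ) < P := by exact_mod_cast Nat.pos_of_ne_zero (NeZero.ne P)
  rw [div_le_one h1]
  exact_mod_cast (ZMod.val_lt a).le

theorem xx_nonneg (q : ℕ) {P : ℕ} [NeZero P] (v : ZMod P × Bool) (s : Sym q) : 0 ≤ xx q v s := by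
  have h1 := val_div_le v.1
  have h2 : (0 : ℝ) ≤ (v.1.val : ℝ) / P := by positivity
  unfold xx
  refine add_nonneg ?_ ?_
  · split_ifs
    · exact h2
    · exact le_rfl
  · split_ifs
    · linarith
    · exact le_rfl

theorem xx_sum (q : ℕ) {P : ℕ} (v : ZMod P × Bool) : ∑ s : Sym q, xx q v s = 1 := by
  unfold xx
  rw [sum_add_distrib, sum_ite_eq', sum_ite_eq', if_pos (mem_univ _), if_pos (mem_univ _)]
  ring

theorem marg (q : ℕ) {P : ℕ} [NeZero P] (g : Fin P → Bool) (v : ZMod P × Bool)
    (h : (univ.filter (fun θ => g θ = true)).card = v.1.val) (s : Sym q) :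
    (∑ θ, if (Sym.bit (g θ) : Sym q) = s then (1 : ℝ) else 0) / P = xx q v s := by
  have hP : (P : ℝ) ≠ 0 := by exact_mod_cast NeZero.ne P
  have h1 : (∑ θ, if g θ = true then (1 : ℝ) else 0) = v.1.val := by
    rw [sum_boole, h]
  have h2 : (∑ θ, if g θ = true then (1 : ℝ) else 0) + (∑ θ, if g θ = false then (1 : ℝ) else 0) =
      P := by
    rw [← sum_add_distrib]
    have h3 : ∀ θ : Fin P, (if g θ = true then (1 : ℝ) else 0) +
        (if g θ = false then (1 : ℝ) else 0) = 1 := by
      intro θ
      cases g θ <;> simp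
    rw [sum_congr rfl fun θ _ => h3 θ, sum_const, card_univ, Fintype.card_fin, nsmul_eq_mul,
      mul_one]
  unfold xx
  by_cases ht : s = .bit true
  · subst ht
    have h4 : ∀ θ, (if (Sym.bit (g θ) : Sym q) = .bit true then (1 : ℝ) else 0) =
        if g θ = true then 1 else 0 := by
      intro θ
      cases g θ <;> simp
    rw [sum_congr rfl fun θ _ => h4 θ, h1, if_pos rfl, if_neg (by simp), add_zero]
  · by_cases hf : s = .bit false
    · subst hf
      have h4 : ∀ θ, (if (Sym.bit (g θ) : Sym q) = .bit false then (1 : ℝ) else 0) =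
          if g θ = false then 1 else 0 := by
        intro θ
        cases g θ <;> simp
      rw [sum_congr rfl fun θ _ => h4 θ, if_neg ht, if_pos rfl, zero_add]
      have h5 : (∑ θ, if g θ = false then (1 : ℝ) else 0) = P - v.1.val := by linarith
      rw [h5]
      field_simp
    · rw [if_neg ht, if_neg hf, add_zero, sum_eq_zero, zero_div]
      intro θ _
      rw [if_neg]
      intro hh
      cases hg : g θ
      · rw [hg] at hh
        exact hf hh.symm
      · rw [hg] at hh
        exact ht hh.symm

open Classical in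
/-- **NLP** -/
theorem t_nlp (hlp : S_lp) : S_nlp := by
  intro P q n _ hodd h3
  have hP0 : (0 : ℝ) < P := by
    have : 0 < P := by omega
    exact_mod_cast this
  choose β hβ1 hβ2 using fun b => hlp P q n hodd h3 b
  let FF : JJ P n → Fin P → Fin ((n + 1) * 10) → Sym q := fun j θ k => .bit (β j.1.1 θ k)
  let z : JJ P n → (Fin ((n + 1) * 10) → Sym q) → ℝ := fun j a =>
    (∑ θ, if FF j θ = a then (1 : ℝ) else 0) / P
  have hz0 : ∀ j a, 0 ≤ z j a := by
    intro j a
    refine div_nonneg (sum_nonneg fun θ _ => ?_) hP0.le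
    split_ifs
    · exact zero_le_one
    · exact le_rfl
  have hkey : ∀ (j : JJ P n) (c : (Fin ((n + 1) * 10) → Sym q) → Prop) (_ : DecidablePred c),
      (∑ a, (if c a then z j a else 0)) = (∑ θ, if c (FF j θ) then (1 : ℝ) else 0) / P :=
    fun j c _ => key (P : ℝ) (FF j) c
  refine ⟨xx q, z, xx_nonneg q, hz0, xx_sum q, ?_, ?_, ?_⟩
  · intro j
    have h1 := hkey j (fun _ => True) (fun _ => inferInstance)
    simp only [if_true] at h1
    rw [h1, sum_const, card_univ, Fintype.card_fin, nsmul_eq_mul, mul_one, div_self hP0.ne']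
  · intro j i s
    have h1 := hkey j (fun a => a i = s) (fun _ => inferInstance)
    have h2 := marg q (fun θ => β j.1.1 θ i) (eJ j i) (hβ1 j.1.1 i) s
    rw [← h2]
    exact h1
  · have hj : ∀ j : JJ P n, 1 - ((n : ℝ) + 1) / P ≤
        ∑ a, (if fJ q j a = true then z j a else 0) := by
      intro j
      rw [hkey j (fun a => fJ q j a = true) (fun _ => inferInstance)]
      have h1 : ∀ θ, (∀ i, BitOK (q := q) (dig (j.1.1 i)) (fun r => .bit (β j.1.1 θ (ps i r)))) →
          fJ q j (FF j θ) = true := by
        intro θ hθ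
        unfold fJ
        split_ifs
        · exact decide_eq_true (Or.inl hθ)
        · exact decide_eq_true (Or.inl hθ)
        · exact decide_eq_true ⟨_, rfl⟩
      have h2 : (P : ℝ) - (n + 1) ≤ ∑ θ, if fJ q j (FF j θ) = true then (1 : ℝ) else 0 := by
        have h3 := hβ2 j.1.1
        rw [Set.ncard_eq_toFinset_card'] at h3
        have h4 : (P : ℝ) ≤ (∑ θ : Fin P, if fJ q j (FF j θ) = true then (1 : ℝ) else 0) +
            ∑ θ : Fin P, if θ ∈ {θ | ¬ ∀ i, BitOK (q := q) (dig (j.1.1 i))
              (fun r => .bit (β j.1.1 θ (ps i r)))}.toFinset then (1 : ℝ) else 0 := by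
          rw [← sum_add_distrib]
          calc (P : ℝ) = ∑ _θ : Fin P, (1 : ℝ) := by
                rw [sum_const, card_univ, Fintype.card_fin, nsmul_eq_mul, mul_one]
            _ ≤ _ := by
                refine sum_le_sum fun θ _ => ?_
                by_cases hθ : ∀ i, BitOK (q := q) (dig (j.1.1 i))
                    (fun r => .bit (β j.1.1 θ (ps i r)))
                · rw [if_pos (h1 θ hθ)]
                  have : (0 : ℝ) ≤ if θ ∈ {θ | ¬ ∀ i, BitOK (q := q) (dig (j.1.1 i))
                      (fun r => .bit (β j.1.1 θ (ps i r)))}.toFinset then (1 : ℝ) else 0 := by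
                    split_ifs
                    · exact zero_le_one
                    · exact le_rfl
                  linarith
                · rw [if_pos (show θ ∈ {θ | ¬ ∀ i, BitOK (q := q) (dig (j.1.1 i))
                      (fun r => .bit (β j.1.1 θ (ps i r)))}.toFinset from Set.mem_toFinset.2 hθ)]
                  have : (0 : ℝ) ≤ if fJ q j (FF j θ) = true then (1 : ℝ) else 0 := by
                    split_ifs
                    · exact zero_le_one
                    · exact le_rfl
                  linarith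
        rw [sum_ite_mem, univ_inter, sum_const, nsmul_eq_mul, mul_one] at h4
        have h5 : (({θ | ¬ ∀ i, BitOK (q := q) (dig (j.1.1 i))
              (fun r => .bit (β j.1.1 θ (ps i r)))}.toFinset.card : ℕ) : ℝ) ≤ (n : ℝ) + 1 := by
          exact_mod_cast h3
        linarith
      rw [le_div_iff₀ hP0, sub_mul, div_mul_cancel₀ _ hP0.ne', one_mul]
      exact h2
    calc (1 - ((n : ℝ) + 1) / P) * Fintype.card (JJ P n)
        = ∑ _j : JJ P n, (1 - ((n : ℝ) + 1) / P) := by
          rw [sum_const, card_univ, nsmul_eq_mul, mul_comm]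
      _ ≤ _ := sum_le_sum fun j _ => hj j

end Pool.Agent.H314.CS
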